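import Pool.Agent.Lib.MP_b7b82d_an.Gap.Low81
import Pool.Agent.Lib.MP_b7b82d_an.Gap.Up_1
import Pool.Agent.Lib.MP_b7b82d_an.Gap.Iso_21
import Pool.Agent.Lib.MP_b7b82d_an.Gap.Mah_33

/-!
A gap in the metric size of the union of the closed diagonal orbits contained in a compact set.
-/

open Pool.MP_b7b82d_an

namespace Pool.Agent.Results.MP_767687_an.FamilyGap

/-- Let `C` be a compact set of real `3 × 3` matrices, let `K` be its image in
`SL_3(ℝ)/SL_3(ℤ)`, and let `E` be the union of the closed `A`-orbits contained in `K` (as a set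
of matrices, `ClosedIn C` being the property of `A g SL_3(ℤ)` to be closed and contained in
`C SL_3(ℤ)`). Cover `E ∩ C` by closed balls of radius `r` (in the norm of the largest entry).
If `K` contains only finitely many closed `A`-orbits then at most `B r^{-2}` balls are needed; if
`K` contains infinitely many closed `A`-orbits then at least `c r^{-2} log^2(1/r)` balls are
needed, for every `r ≤ 1/2`. -/
theorem result (C : Set (Matrix (Fin 3) (Fin 3) ℝ)) (hC : IsCompact C) :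
    ({O | ClosedIn C O}.Finite → ∃ B : ℝ, ∀ r : ℝ, 0 < r → r ≤ 1 / 2 →
      ∃ F : Finset (Matrix (Fin 3) (Fin 3) ℝ), (F.card : ℝ) ≤ B * (1 / r) ^ 2 ∧
        ∀ M ∈ (⋃₀ {O | ClosedIn C O}) ∩ C, ∃ f ∈ F, ∀ p q, |M p q - f p q| ≤ r) ∧
    ({O | ClosedIn C O}.Infinite → ∃ c : ℝ, 0 < c ∧ ∀ r : ℝ, 0 < r → r ≤ 1 / 2 →
      ∀ F : Finset (Matrix (Fin 3) (Fin 3) ℝ),
        (∀ M ∈ (⋃₀ {O | ClosedIn C O}) ∩ C, ∃ f ∈ F, ∀ p q, |M p q - f p q| ≤ r) →
        c * (1 / r) ^ 2 * Real.log (1 / r) ^ 2 ≤ F.card) :=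
  ⟨fun h => up_family stUp le_rfl hC h,
    fun h => gap_family stIso stMah stP10_all le_rfl hC h⟩

end Pool.Agent.Results.MP_767687_an.FamilyGap
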