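import Pool.Agent.Lib.MP_b7b82d_an.Walls.MainR81
import Pool.Agent.Lib.MP_b7b82d_an.Walls.BlockR81

/-!
The finiteness of the number of closed diagonal orbits in a compact set is decided by the walls
`a_i = a_j` of the diagonal group, by unipotent leaves, and by the forms of the lattices.
-/

open Pool.MP_b7b82d_an

namespace Pool.Agent.Results.MP_767687_an.WallsAndSpans

/-- Let `C` be a compact set of real `3 × 3` matrices, let `K` be its image in
`SL_3(ℝ)/SL_3(ℤ)`, let `Y` be the closure of the union of the closed `A`-orbits contained in `K`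
(as a set of matrices, `ClosedIn C` being the property of `A g SL_3(ℤ)` to be closed and contained
in `C SL_3(ℤ)`) and let `R` be a nonempty proper set of rows. The following are equivalent.
(1) There are only finitely many closed `A`-orbits in `K`.
(2) For `i ∈ R`, `j ∉ R` and `y ∈ Y` the closure of the wall orbit `W_ij y` contains `a y` for all
positive diagonal `a` of determinant one.
(3) For `i ∈ R`, `j ∉ R` no `y ∈ Y` has `(1 + E_ij) y ∈ Y`.
(4) For `i ∈ R`, `j ∉ R` and `y, (1 + E_ij) y ∈ Y` the closures of `W_ij y` and `W_ij a y` meet for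
some diagonal `a` of determinant one with `|a_i| ≠ |a_j|`.
(5) `Y` contains only countably many minimal sets of each wall `a_i = a_j`, `i ∈ R`, `j ∉ R`.
(6) There are only countably many spans of the rows `y_p`, `p ∈ R`, `y ∈ Y`. -/
theorem result (C : Set (Matrix (Fin 3) (Fin 3) ℝ)) (hC : IsCompact C)
    (R : Finset (Fin 3)) (hR : R.Nonempty) (hR' : R ≠ Finset.univ) :
    List.TFAE [
      {O | ClosedIn C O}.Finite,
      ∀ i ∈ R, ∀ j, j ∉ R → ∀ y ∈ closure (⋃₀ {O | ClosedIn C O}), ∀ d : Fin 3 → ℝ,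
        (∀ k, 0 < d k) → ∏ k, d k = 1 → Matrix.diagonal d * y ∈ closure (wallOrbit i j y),
      ∀ i ∈ R, ∀ j, j ∉ R → ∀ y ∈ closure (⋃₀ {O | ClosedIn C O}),
        Matrix.transvection i j 1 * y ∉ closure (⋃₀ {O | ClosedIn C O}),
      ∀ i ∈ R, ∀ j, j ∉ R → ∀ y ∈ closure (⋃₀ {O | ClosedIn C O}),
        Matrix.transvection i j 1 * y ∈ closure (⋃₀ {O | ClosedIn C O}) →
          ∃ d : Fin 3 → ℝ, ∏ k, d k = 1 ∧ |d i| ≠ |d j| ∧
          (closure (wallOrbit i j y) ∩ closure (wallOrbit i j (Matrix.diagonal d * y))).Nonempty,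
      ∀ i ∈ R, ∀ j, j ∉ R →
        {M : Set (Matrix (Fin 3) (Fin 3) ℝ) | Wall81.WMin i j M ∧
          M ⊆ closure (⋃₀ {O | ClosedIn C O})}.Countable,
      {V : Submodule ℝ (Fin 3 → ℝ) | ∃ y ∈ closure (⋃₀ {O | ClosedIn C O}),
        V = Submodule.span ℝ {v | ∃ p ∈ R, v = y p}}.Countable
    ] := by
  have hRn : Nat.Coprime R.card 3 := by
    have h1 : 0 < R.card := Finset.card_pos.2 hR
    have h2 : R.card < 3 := by
      have h3 := (Finset.card_lt_iff_ne_univ R).2 hR'
      simpa using h3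
    interval_cases R.card
    · decide
    · decide
  obtain ⟨h1, h2⟩ := WR81.main_family (stBlockR_81 stDicho_33 (stField stDicho_33) stNonSat_26) le_rfl hC hR hRn
  have hinv : ∀ y ∈ closure (⋃₀ {O | ClosedIn C O}),
      orbitSet y ⊆ closure (⋃₀ {O | ClosedIn C O}) := by
    rintro y hy _ ⟨d, hd, γ, hγ, rfl⟩
    have hc : Continuous fun M : Matrix (Fin 3) (Fin 3) ℝ =>
        Matrix.diagonal d * M * γ.map (fun z : ℤ => (z : ℝ)) :=
      (continuous_const.mul continuous_id).mul continuous_const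
    have h3 := mem_closure_image hc.continuousAt hy
    refine closure_mono ?_ h3
    rintro _ ⟨M, ⟨O, hO, hMO⟩, rfl⟩
    have hO' := hO
    obtain ⟨g, hg, hOg, -, -⟩ := hO
    refine ⟨O, hO', ?_⟩
    rw [hOg] at hMO ⊢
    exact orbitSet_subset_of_mem hMO ⟨d, hd, γ, hγ, rfl⟩
  have hdet : ∀ y ∈ closure (⋃₀ {O | ClosedIn C O}), y.det = 1 := by
    intro y hy
    have h3 : IsClosed {M : Matrix (Fin 3) (Fin 3) ℝ | M.det = 1} :=
      isClosed_eq (Continuous.matrix_det continuous_id) continuous_const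
    refine closure_minimal ?_ h3 hy
    rintro M ⟨O, ⟨g, hg, hOg, -, -⟩, hMO⟩
    rw [hOg] at hMO
    exact det_of_mem_orbitSet hg hMO
  obtain ⟨c₀, hc₀, hNm⟩ := stMah 3 (by norm_num) C hC
  have hNm' : ∀ y ∈ closure (⋃₀ {O | ClosedIn C O}), ∀ v : Fin 3 → ℤ, v ≠ 0 → Nm y v ≠ 0 := by
    intro y hy v hv
    have h3 : IsClosed {M : Matrix (Fin 3) (Fin 3) ℝ | c₀ ≤ Nm M v} :=
      isClosed_le continuous_const (continuous_Nm v)
    have h4 : y ∈ {M : Matrix (Fin 3) (Fin 3) ℝ | c₀ ≤ Nm M v} := by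
      refine closure_minimal ?_ h3 hy
      rintro M ⟨O, hO, hMO⟩
      obtain ⟨g, hg, hOg, hcl, hOC⟩ := hO
      have h5 := hNm g hg fun d hd => hOC _ (by
        rw [hOg]
        exact ⟨d, hd, 1, by simp, by rw [map_one_int, mul_one]⟩)
      rw [hOg] at hMO
      exact Nm_orbit hMO h5 v hv
    exact (lt_of_lt_of_le hc₀ h4).ne'
  tfae_have 1 → 2 := fun h => (h1 h).1
  tfae_have 2 → 3 := by
    intro h i hi j hj
    have hij : i ≠ j := fun e => hj (e ▸ hi)
    exact WR81.noPair_aux le_rfl hij isClosed_closure hinv hdet hNm' (h i hi j hj)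
  tfae_have 3 → 4 := fun h i hi j hj y hy hTy => absurd hTy (h i hi j hj y hy)
  tfae_have 4 → 1 := fun h => h2 (Or.inl h)
  tfae_have 1 → 5 := fun h => (h1 h).2.2.1
  tfae_have 5 → 1 := fun h => h2 (Or.inr (Or.inl h))
  tfae_have 1 → 6 := by
    intro h
    obtain ⟨S, hS, hSy⟩ := (h1 h).2.2.2
    refine hS.mono ?_
    rintro V ⟨y, hy, rfl⟩
    exact hSy y hy
  tfae_have 6 → 1 := fun h => h2 (Or.inr (Or.inr ⟨_, h, fun y hy => ⟨y, hy, rfl⟩⟩))
  tfae_finish

end Pool.Agent.Results.MP_767687_an.WallsAndSpans
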